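import Pool.Agent.Y742.CN.Stm

/-!
# A chain of leaves of maximal transcendence degree has a stable end (helper618)
-/

set_option autoImplicit false

namespace Pool.Agent.Y618.CN

open Pool.Agent.Y742.CN TensorProduct

/-- There is a chain whose end point has `d` independent coordinates over the starting point. -/
def P (Ω K : Type) [Field Ω] [Field K] [Algebra Ω K] (g : Submodule K (Derivation Ω K K))
    (d : ℕ) : Prop :=
  ∃ (M : Type) (_ : Field M) (_ : Algebra Ω M) (s e : K →ₐ[Ω] M), Tgt g s e ∧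
    ∃ y : Fin d → K,
      Function.Injective (MvPolynomial.eval₂Hom (s : K →+* M) (fun i => e (y i)))

theorem p_zero (Ω K : Type) [Field Ω] [Field K] [Algebra Ω K]
    (g : Submodule K (Derivation Ω K K)) : P Ω K g 0 := by
  refine ⟨K, inferInstance, inferInstance, AlgHom.id Ω K, AlgHom.id Ω K, ?_, Fin.elim0, ?_⟩
  · intro q f h _ d hd
    refine Finset.sum_eq_zero fun l _ => ?_
    have h1 := hd (h l)
    simp only [AlgHom.coe_id, id_eq] at h1 ⊢
    rw [h1, mul_zero]
  · intro p p' hp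
    obtain ⟨c, rfl⟩ := MvPolynomial.C_surjective (R := K) (Fin 0) p
    obtain ⟨c', rfl⟩ := MvPolynomial.C_surjective (R := K) (Fin 0) p'
    simp only [MvPolynomial.coe_eval₂Hom, MvPolynomial.eval₂_C] at hp
    have h2 : c = c' := hp
    rw [h2]

theorem p_le (Ω K : Type) [Field Ω] [Field K] [Algebra Ω K]
    (g : Submodule K (Derivation Ω K K)) (n : ℕ) (x : Fin n → K)
    (hx : IsTranscendenceBasis Ω x) (d : ℕ) (hd : P Ω K g d) : d ≤ n := by
  obtain ⟨M, _, _, s, e, -, y, hy⟩ := hd
  have hind : AlgebraicIndependent Ω y := by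
    rw [algebraicIndependent_iff]
    intro p hp
    have h1 : MvPolynomial.eval₂Hom (s : K →+* M) (fun i => e (y i))
        (MvPolynomial.map (algebraMap Ω K) p) = 0 := by
      rw [MvPolynomial.coe_eval₂Hom, MvPolynomial.eval₂_map]
      have h2 : (s : K →+* M).comp (algebraMap Ω K) = algebraMap Ω M := by
        ext c; exact s.commutes c
      rw [h2]
      have h3 : e (MvPolynomial.aeval y p) = 0 := by rw [hp, map_zero]
      rw [← MvPolynomial.aeval_def, ← h3]
      exact (MvPolynomial.comp_aeval_apply y e p).symm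
    have h4 := hy (h1.trans (map_zero _).symm)
    exact MvPolynomial.map_injective _ (algebraMap Ω K).injective (h4.trans (map_zero _).symm)
  have h5 := hind.cardinalMk_le_trdeg
  have h6 := hx.cardinalMk_eq_trdeg
  rw [← h6] at h5
  simpa using h5

theorem cons_inj (K M : Type) [Field K] [Field M] (σ : K →+* M) (d : ℕ)
    (w : Fin d → M) (v : M)
    (ht : Function.Injective (Polynomial.eval₂RingHom (MvPolynomial.eval₂Hom σ w) v)) :
    Function.Injective (MvPolynomial.eval₂Hom σ (Fin.cons v w : Fin (d + 1) → M)) := by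
  have h1 : MvPolynomial.eval₂Hom σ (Fin.cons v w : Fin (d + 1) → M)
      = (Polynomial.eval₂RingHom (MvPolynomial.eval₂Hom σ w) v).comp
        (MvPolynomial.finSuccEquiv K d : MvPolynomial (Fin (d + 1)) K →+* _) := by
    refine MvPolynomial.ringHom_ext ?_ ?_
    · intro c
      simp [MvPolynomial.finSuccEquiv_apply]
    · intro i
      refine Fin.cases ?_ (fun i => ?_) i
      · simp [MvPolynomial.finSuccEquiv_X_zero]
      · simp [MvPolynomial.finSuccEquiv_X_succ]
  rw [h1, RingHom.coe_comp]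
  exact ht.comp (MvPolynomial.finSuccEquiv K d).injective

theorem core2 (R A M M' : Type) [CommRing R] [IsDomain R] [CommRing A] [Field M] [Field M']
    (θ : R →+* A) (φ : A →+* M) (φ' : A →+* M') (hker : ∀ T, φ' T = 0 → φ T = 0)
    (hinj : Function.Injective (φ.comp θ)) (h : A) (hh : φ h = 0)
    (halg : @IsAlgebraic R M' _ _ (φ'.comp θ).toAlgebra (φ' h)) : φ' h = 0 := by
  letI : Algebra R M' := (φ'.comp θ).toAlgebra
  by_contra hne
  obtain ⟨q, hq0, hq⟩ := IsAlgebraic.exists_nonzero_coeff_and_aeval_eq_zero halg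
    (mem_nonZeroDivisors_of_ne_zero hne)
  have h1 : φ' (Polynomial.eval₂ θ h q) = 0 := by
    rw [Polynomial.hom_eval₂]
    exact hq
  have h2 := hker _ h1
  rw [Polynomial.hom_eval₂, hh, Polynomial.eval₂_at_zero] at h2
  exact hq0 (hinj (h2.trans (map_zero _).symm))

theorem isAlg_sum (R M : Type) [CommRing R] [IsDomain R] [Field M] [Algebra R M]
    (ι : Type) (t : Finset ι) (f : ι → M) (hf : ∀ i ∈ t, IsAlgebraic R (f i)) :
    IsAlgebraic R (∑ i ∈ t, f i) :=
  Finset.sum_induction f (IsAlgebraic R) (fun _ _ ha hb => ha.add hb) isAlgebraic_zero hf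

theorem core (Ω K M M' : Type) [Field Ω] [Field K] [Algebra Ω K] [Field M] [Algebra Ω M]
    [Field M'] [Algebra Ω M'] (s e : K →ₐ[Ω] M) (s' e' : K →ₐ[Ω] M')
    (h1 : ∀ (q : ℕ) (a b : Fin q → K), ∑ l, s' (a l) * e' (b l) = 0 →
      ∑ l, s (a l) * e (b l) = 0)
    (d : ℕ) (y : Fin d → K)
    (hy : Function.Injective (MvPolynomial.eval₂Hom (s : K →+* M) (fun i => e (y i))))
    (hmax : ∀ y' : Fin (d + 1) → K,
      ¬ Function.Injective (MvPolynomial.eval₂Hom (s' : K →+* M') (fun i => e' (y' i))))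
    (q : ℕ) (a b : Fin q → K) (hab : ∑ l, s (a l) * e (b l) = 0) :
    ∑ l, s' (a l) * e' (b l) = 0 := by
  set φ : K ⊗[Ω] K →ₐ[Ω] M := Algebra.TensorProduct.productMap s e with hφ
  set φ' : K ⊗[Ω] K →ₐ[Ω] M' := Algebra.TensorProduct.productMap s' e' with hφ'
  have hker : ∀ T, φ' T = 0 → φ T = 0 := by
    intro T hT
    obtain ⟨k, m, n, rfl⟩ := TensorProduct.exists_sum_tmul_eq T
    rw [map_sum] at hT ⊢
    exact h1 k m n hT
  let θ : MvPolynomial (Fin d) K →+* K ⊗[Ω] K :=
    MvPolynomial.eval₂Hom (Algebra.TensorProduct.includeLeftRingHom) (fun i => 1 ⊗ₜ y i)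
  have hψ : (φ : K ⊗[Ω] K →+* M).comp θ
      = MvPolynomial.eval₂Hom (s : K →+* M) (fun i => e (y i)) := by
    refine MvPolynomial.ringHom_ext ?_ ?_
    · intro c
      simp [θ, hφ]
    · intro i
      simp [θ, hφ]
  have hψ' : (φ' : K ⊗[Ω] K →+* M').comp θ
      = MvPolynomial.eval₂Hom (s' : K →+* M') (fun i => e' (y i)) := by
    refine MvPolynomial.ringHom_ext ?_ ?_
    · intro c
      simp [θ, hφ']
    · intro i
      simp [θ, hφ']
  have hinj : Function.Injective ((φ : K ⊗[Ω] K →+* M).comp θ) := by rw [hψ]; exact hy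
  have hinj' : Function.Injective ((φ' : K ⊗[Ω] K →+* M').comp θ) := by
    rw [injective_iff_map_eq_zero]
    intro p hp
    have h2 : ((φ : K ⊗[Ω] K →+* M).comp θ) p = 0 := hker _ hp
    exact hinj (h2.trans (map_zero _).symm)
  have key : ∀ l, @IsAlgebraic (MvPolynomial (Fin d) K) M' _ _
      ((φ' : K ⊗[Ω] K →+* M').comp θ).toAlgebra (s' (a l) * e' (b l)) := by
    intro l
    letI : Algebra (MvPolynomial (Fin d) K) M' := ((φ' : K ⊗[Ω] K →+* M').comp θ).toAlgebra
    have ha : IsAlgebraic (MvPolynomial (Fin d) K) (s' (a l)) := by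
      have h3 : s' (a l) = algebraMap (MvPolynomial (Fin d) K) M' (MvPolynomial.C (a l)) := by
        change s' (a l) = ((φ' : K ⊗[Ω] K →+* M').comp θ) (MvPolynomial.C (a l))
        rw [hψ']
        simp
      rw [h3]
      exact isAlgebraic_algebraMap _
    have hb : IsAlgebraic (MvPolynomial (Fin d) K) (e' (b l)) := by
      by_contra htr
      refine hmax (Fin.cons (b l) y) ?_
      have h4 : (fun i => e' ((Fin.cons (b l) y : Fin (d + 1) → K) i))
          = (Fin.cons (e' (b l)) (fun i => e' (y i)) : Fin (d + 1) → M') := by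
        funext i
        refine Fin.cases ?_ (fun i => ?_) i <;> simp
      rw [h4]
      refine cons_inj K M' _ d _ _ ?_
      rw [← hψ']
      have h5 : Transcendental (MvPolynomial (Fin d) K) (e' (b l)) := htr
      rw [transcendental_iff_injective] at h5
      exact h5
    exact ha.mul hb
  have h6 : φ (∑ l, a l ⊗ₜ[Ω] b l) = 0 := by
    rw [map_sum]
    exact hab
  have h7 : φ' (∑ l, a l ⊗ₜ[Ω] b l) = ∑ l, s' (a l) * e' (b l) := by
    rw [map_sum]
    rfl
  rw [← h7]
  refine core2 (MvPolynomial (Fin d) K) (K ⊗[Ω] K) M M' θ (φ : K ⊗[Ω] K →+* M)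
    (φ' : K ⊗[Ω] K →+* M') hker hinj _ h6 ?_
  have h8 : (φ' : K ⊗[Ω] K →+* M') (∑ l, a l ⊗ₜ[Ω] b l) = ∑ l, s' (a l) * e' (b l) := h7
  rw [h8]
  letI : Algebra (MvPolynomial (Fin d) K) M' := ((φ' : K ⊗[Ω] K →+* M').comp θ).toAlgebra
  exact isAlg_sum (MvPolynomial (Fin d) K) M' (Fin q) Finset.univ _ (fun l _ => key l)

theorem sMax (h5 : SStep) (h6 : SNext) : SMax := by
  intro Ω K _ _ _ _ n x hx g hg
  classical
  have hn : ∀ d, P Ω K g d → d ≤ n := fun d hd => p_le Ω K g n x hx d hd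
  have hd0 : P Ω K g (Nat.findGreatest (P Ω K g) n) :=
    Nat.findGreatest_spec (Nat.zero_le n) (p_zero Ω K g)
  have hd1 : ¬ P Ω K g (Nat.findGreatest (P Ω K g) n + 1) := by
    intro hP
    exact Nat.findGreatest_is_greatest (Nat.lt_succ_self _) (hn _ hP) hP
  set d := Nat.findGreatest (P Ω K g) n with hd
  obtain ⟨M, _, _, s, e, hT, y, hy⟩ := hd0
  refine ⟨M, inferInstance, inferInstance, s, e, hT, ?_⟩
  intro D hD hL
  obtain ⟨M', _, _, j, e', he', hs⟩ := h6 Ω K M D s e
  have hT' : Tgt g (j.comp s) e' := h5 Ω K n x hx g hg D hD hL M M' j s e e' hT he'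
  intro q a b hab
  have h1 := core Ω K M M' s e (j.comp s) e' (fun q a b h => (hs q a b h).1) d y hy
    (fun y' hy' => hd1 ⟨M', inferInstance, inferInstance, j.comp s, e', hT', y', hy'⟩) q a b hab
  exact (hs q a (fun l => D (b l)) (hs q a b h1).2).1

end Pool.Agent.Y618.CN
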